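import Pool.Agent.N820.RS.One

/-!
# Rank one Stark over complex cubic fields: a local-global principle

Let `K` be a complex cubic field, `𝔣` a nonzero proper ideal, `S` the set of the two infinite places
and the primes which divide `𝔣`, and `H / K` a finite abelian extension which is unramified outside
`S` (for the other abelian extensions there is no Artin map on the ideals prime to `𝔣`, and the
statements below are empty), for instance the narrow ray class field `K(𝔣)`.

The conjecture for `H` is the conjunction of its `l`-parts (`l` prime), and the `l`-part for `H`
follows from the `l`-parts for the fields `L` between `K` and `H` for which `Gal(L/K)` is the product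
of an `l`-group and a cyclic group of order prime to `l`.

The engine is the theorem of helper598 (`MP_ca56d1_nt.LocalGlobal`) for Tate's form of the
conjecture.
-/

set_option autoImplicit false

namespace Pool.Agent.Results.MP_d9f52e_nt.LocalGlobal

open NumberField IsDedekindDomain Pool.Agent.N598.ST Pool.Agent.N820.RS

/-- `K` is a complex cubic field: of degree three, with one real and one complex place. -/
structure IsComplexCubic (K : Type) [Field K] [NumberField K] : Prop where
  deg : Module.finrank ℚ K = 3
  real : InfinitePlace.nrRealPlaces K = 1
  complex : InfinitePlace.nrComplexPlaces K = 1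

/-- Let `K` be a complex cubic field, `𝔣` an ideal, `𝔣 ≠ 0`, `𝔣 ≠ 𝓞 K`, let `S` consist of the
infinite places and the primes dividing `𝔣`, and let `H / K` be abelian.
1. For every prime `l`: if the `l`-part of the conjecture holds for all `L / K` which embed in `H`
  and whose Galois group is the product of an `l`-group and a cyclic group of order prime to `l`,
  then it holds for `H / K`.
2. If this is so for all primes `l`, then the conjecture holds for `H / K`.
3. The conjecture for `H / K` implies all its `l`-parts. -/
theorem result (K : Type) [Field K] [NumberField K] (hK : IsComplexCubic K) (𝔣 : Ideal (𝓞 K))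
    (hf0 : 𝔣 ≠ ⊥) (hf1 : 𝔣 ≠ ⊤) (S : Finset (Place K)) (hS : IsModulus 𝔣 S)
    (H : Type) [Field H] [NumberField H] [Algebra K H] [IsAbelianGalois K H] :
    (∀ l : ℕ, l.Prime →
      (∀ (L : Type) [Field L] [NumberField L] [Algebra K L], Nonempty (L →ₐ[K] H) →
        CyclicOutside l Gal(L/K) → CPart K L l S) → CPart K H l S) ∧
    ((∀ l : ℕ, l.Prime → ∀ (L : Type) [Field L] [NumberField L] [Algebra K L],
      Nonempty (L →ₐ[K] H) → CyclicOutside l Gal(L/K) → CPart K L l S) → CMul K H 1 S) ∧
    (CMul K H 1 S → ∀ l : ℕ, l.Prime → CPart K H l S) := by
  have h2 : 2 ≤ Fintype.card (InfinitePlace K) := by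
    rw [InfinitePlace.card_eq_nrRealPlaces_add_nrComplexPlaces, hK.real, hK.complex]
  obtain ⟨ha, hb⟩ := onecomplex (H := H) hK.complex hS.inf (hS.card hf1 h2 hf0)
  exact ⟨ha, fun h => hb.2 fun l hl => ha l hl (h l hl), hb.1⟩

end Pool.Agent.Results.MP_d9f52e_nt.LocalGlobal
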